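import Mathlib

/-!
# MP_1b9d6e_gt, Q1 for all spaces whose point closures are countably coinitial in open sets

If for every open `U` and every point `y` the set `U ∩ cl {y}` has a countable subset that is
coinitial in the specialization order (all spaces with countable point closures, in particular all
`T_1` spaces and all countable spaces), and the lattice of closed sets of `X` with its Scott
topology is core-compact, then `X` is core-compact.
-/

open Set TopologicalSpace

namespace Pool.Agent.Results.MP_1b9d6e_gt.CountableClosures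

/-- Scott open subsets of a poset. -/
def ScottOpen {P : Type*} [PartialOrder P] (U : Set P) : Prop :=
  IsUpperSet U ∧ ∀ (D : Set P) (s : P), D.Nonempty → DirectedOn (· ≤ ·) D → IsLUB D s →
    s ∈ U → (D ∩ U).Nonempty

/-- `V ≪ U`: every family of open sets whose union contains `U` has a finite subfamily whose union
contains `V`. Here `op` is the predicate of being open. -/
def WayBelow {Y : Type*} (op : Set Y → Prop) (V U : Set Y) : Prop :=
  ∀ C : Set (Set Y), (∀ W ∈ C, op W) → U ⊆ ⋃₀ C → ∃ F : Set (Set Y), F ⊆ C ∧ F.Finite ∧ V ⊆ ⋃₀ F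

/-- Core-compactness for the topology whose open sets are given by `op`. -/
def CoreCompact {Y : Type*} (op : Set Y → Prop) : Prop :=
  ∀ U : Set Y, op U → ∀ y ∈ U, ∃ V : Set Y, op V ∧ y ∈ V ∧ WayBelow op V U

variable {X : Type*} [TopologicalSpace X]

/-- the saturation of a set -/
def up (F : Set X) : Set X := {z | ∃ y ∈ F, y ∈ closure {z}}

lemma meets {D : Set (Closeds X)} {s : Closeds X} (hs : IsLUB D s) {O : Set X} (hO : IsOpen O)
    (h : ((s : Set X) ∩ O).Nonempty) : ∃ d ∈ D, ((d : Set X) ∩ O).Nonempty := by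
  by_contra hcon
  push Not at hcon
  have hub : (⟨Oᶜ, hO.isClosed_compl⟩ : Closeds X) ∈ upperBounds D := by
    intro d hd z hz hzO
    exact (hcon d hd).subset ⟨hz, hzO⟩
  have hle := hs.2 hub
  obtain ⟨z, hz, hzO⟩ := h
  exact hle hz hzO

lemma mem_closure_finset {G : Finset X} {z : X} (hz : z ∈ closure (G : Set X)) :
    ∃ y ∈ G, z ∈ closure {y} := by
  have h1 : (G : Set X) = ⋃ y ∈ G, {y} := by ext; simp
  rw [h1, Finset.closure_biUnion, mem_iUnion₂] at hz
  obtain ⟨y, hy, hzy⟩ := hz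
  exact ⟨y, hy, hzy⟩

/-- Scott openness of the sets `◇O`. -/
lemma diamond_open {O : Set X} (hO : IsOpen O) :
    ScottOpen {C : Closeds X | ((C : Set X) ∩ O).Nonempty} := by
  refine ⟨fun C C' h hC => hC.mono (inter_subset_inter_left _ h), fun D s _ _ hs h => ?_⟩
  obtain ⟨d, hd, hdO⟩ := meets hs hO h
  exact ⟨d, hd, hdO⟩

variable (X) in
/-- For all open `U` and all `y`, the set `U ∩ cl {y}` has a countable subset `E` such that every
`z` in `U ∩ cl {y}` has a point of `E` in its closure. -/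
def CountablyCoinitial : Prop :=
  ∀ U : Set X, IsOpen U → ∀ y : X, ∃ E : Set X, E.Countable ∧ E ⊆ U ∩ closure {y} ∧
    ∀ z ∈ U ∩ closure {y}, ∃ e ∈ E, e ∈ closure {z}

/-- Spaces with countable point closures are covered. -/
lemma CountablyCoinitial.of_countable (h : ∀ y : X, (closure {y}).Countable) :
    CountablyCoinitial X :=
  fun U _ y => ⟨U ∩ closure {y}, (h y).mono inter_subset_right, Subset.rfl,
    fun z hz => ⟨z, hz, subset_closure rfl⟩⟩

/-- Main step: a finitary neighbourhood. -/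
theorem finitary (hcl : CountablyCoinitial X)
    (h : CoreCompact (Y := Closeds X) ScottOpen) (U : Set X) (hU : IsOpen U) (x : X) (hx : x ∈ U) :
    ∃ F : Finset X, (F : Set X) ⊆ U ∧ x ∈ interior (up (F : Set X)) := by
  classical
  by_contra hcon
  push Not at hcon
  obtain ⟨T, hTo, hxT, hTU⟩ := h _ (diamond_open hU) (Closeds.closure {x})
    ⟨x, subset_closure rfl, hx⟩
  -- avoiding finite sets
  have hstep : ∀ F : Finset X, ∃ G : Finset X, (F : Set X) ⊆ U →
      (∀ y ∈ G, y ∈ U ∧ y ∉ up (F : Set X)) ∧ Closeds.closure (G : Set X) ∈ T := by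
    intro F
    by_cases hF : (F : Set X) ⊆ U
    swap
    · exact ⟨∅, fun h => absurd h hF⟩
    have hxcl : x ∈ closure (U ∩ (up (F : Set X))ᶜ) := by
      have h1 : x ∈ closure (up (F : Set X))ᶜ := by
        rw [closure_compl]; exact hcon F hF
      exact mem_closure_iff.mpr fun O hO hxO => by
        obtain ⟨z, hz1, hz2⟩ := mem_closure_iff.mp h1 (O ∩ U) (hO.inter hU) ⟨hxO, hx⟩
        exact ⟨z, hz1.1, hz1.2, hz2⟩
    set A : Set X := U ∩ (up (F : Set X))ᶜ with hA
    let D : Set (Closeds X) := {C | ∃ G : Finset X, (G : Set X) ⊆ A ∧ C = Closeds.closure (G : Set X)}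
    have hDne : D.Nonempty := ⟨_, ∅, by simp, rfl⟩
    have hDdir : DirectedOn (· ≤ ·) D := by
      rintro _ ⟨G, hG, rfl⟩ _ ⟨G', hG', rfl⟩
      refine ⟨_, ⟨G ∪ G', by simp [hG, hG'], rfl⟩, ?_, ?_⟩
      · exact closure_mono (by simp)
      · exact closure_mono (by simp)
    have hLUB : IsLUB D (Closeds.closure A) := by
      refine ⟨?_, ?_⟩
      · rintro _ ⟨G, hG, rfl⟩
        exact closure_mono hG
      · intro C hC
        refine closure_minimal ?_ C.isClosed
        intro z hz
        have := hC ⟨{z}, by simpa using hz, rfl⟩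
        exact this (subset_closure (by simp))
    have hAT : Closeds.closure A ∈ T :=
      hTo.1 (show Closeds.closure {x} ≤ Closeds.closure A from
        closure_minimal (singleton_subset_iff.mpr hxcl) isClosed_closure) hxT
    obtain ⟨_, ⟨G, hG, rfl⟩, hGT⟩ := hTo.2 D _ hDne hDdir hLUB hAT
    exact ⟨G, fun _ => ⟨fun y hy => hG hy, hGT⟩⟩
  choose g hg using hstep
  -- enumerations of point closures
  have henum : ∀ y : X, ∃ e : ℕ → X, ∀ z ∈ U, z ∈ closure {y} →
      ∃ k, e k ∈ U ∧ e k ∈ closure {z} := by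
    intro y
    obtain ⟨E, hE, hEU, hEz⟩ := hcl U hU y
    rcases E.eq_empty_or_nonempty with h0 | h0
    · refine ⟨fun _ => y, fun z hz hzy => ?_⟩
      obtain ⟨e, he, -⟩ := hEz z ⟨hz, hzy⟩
      rw [h0] at he
      exact absurd he (notMem_empty _)
    · obtain ⟨e, he⟩ := hE.exists_eq_range h0
      refine ⟨e, fun z hz hzy => ?_⟩
      obtain ⟨w, hw, hwz⟩ := hEz z ⟨hz, hzy⟩
      have hw' := hw
      rw [he] at hw'
      obtain ⟨k, rfl⟩ := hw'
      exact ⟨k, (hEU hw).1, hwz⟩
  choose e he using henum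
  let avoid : ℕ → Finset X → Finset X := fun n S =>
    ((S ×ˢ Finset.range (n + 1)).image fun p => e p.1 p.2).filter (· ∈ U)
  have havoid : ∀ n S, ((avoid n S : Finset X) : Set X) ⊆ U := by
    intro n S z hz
    exact (Finset.mem_filter.mp hz).2
  let S : ℕ → Finset X := fun n => Nat.rec ∅ (fun n S => S ∪ g (avoid n S)) n
  let G : ℕ → Finset X := fun n => g (avoid n (S n))
  have hSsucc : ∀ n, S (n + 1) = S n ∪ G n := fun n => rfl
  have hSmono : ∀ m n, m ≤ n → S m ⊆ S n := by
    intro m n hmn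
    induction hmn with
    | refl => exact Finset.Subset.refl _
    | step _ ih => exact ih.trans (by rw [hSsucc]; exact Finset.subset_union_left)
  have hGS : ∀ j n, j < n → G j ⊆ S n := by
    intro j n hjn
    refine Finset.Subset.trans ?_ (hSmono (j + 1) n hjn)
    rw [hSsucc]; exact Finset.subset_union_right
  have hGT : ∀ n, Closeds.closure (G n : Set X) ∈ T := fun n => (hg _ (havoid n (S n))).2
  have hGav : ∀ n, ∀ y ∈ G n, y ∈ U ∧ y ∉ up ((avoid n (S n) : Finset X) : Set X) :=
    fun n => (hg _ (havoid n (S n))).1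
  -- point-finiteness
  have hpf : ∀ z ∈ U, ∃ N, ∀ n ≥ N, z ∉ closure (G n : Set X) := by
    intro z hz
    by_cases hz' : ∃ j, z ∈ closure (G j : Set X)
    · obtain ⟨j, hj⟩ := hz'
      obtain ⟨y, hy, hzy⟩ := mem_closure_finset hj
      obtain ⟨k, hkU, hkz⟩ := he y z hz hzy
      refine ⟨j + k + 1, fun n hn hzn => ?_⟩
      have hkn : e y k ∈ closure (G n : Set X) :=
        closure_minimal (singleton_subset_iff.mpr hzn) isClosed_closure hkz
      obtain ⟨y', hy', hzy'⟩ := mem_closure_finset hkn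
      refine (hGav n y' hy').2 ⟨e y k, ?_, hzy'⟩
      refine Finset.mem_coe.mpr (Finset.mem_filter.mpr ⟨?_, hkU⟩)
      refine Finset.mem_image.mpr ⟨(y, k), ?_, rfl⟩
      exact Finset.mem_product.mpr ⟨hGS j n (by omega) hy, Finset.mem_range.mpr (by show k < n + 1; omega)⟩
    · push Not at hz'
      exact ⟨0, fun n _ => hz' n⟩
  -- the increasing Scott open cover
  let W : ℕ → Set (Closeds X) := fun n =>
    {C | ∀ l ≥ n, ((C : Set X) ∩ (U \ closure (G l : Set X))).Nonempty}
  have hWo : ∀ n, ScottOpen (W n) := by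
    intro n
    refine ⟨fun C C' hCC hC l hl => (hC l hl).mono (inter_subset_inter_left _ hCC), ?_⟩
    intro D s hDne hDdir hs hsW
    have hopen : ∀ l, IsOpen (U \ closure (G l : Set X)) := fun l => hU.sdiff isClosed_closure
    obtain ⟨d0, hd0, z, hz0, hzU, -⟩ := meets hs (hopen n) (hsW n le_rfl)
    obtain ⟨N, hN⟩ := hpf z hzU
    have hfin : ∀ m, ∃ d ∈ D, d0 ≤ d ∧
        ∀ l, n ≤ l → l < m → ((d : Set X) ∩ (U \ closure (G l : Set X))).Nonempty := by
      intro m
      induction m with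
      | zero => exact ⟨d0, hd0, le_rfl, fun l _ hl => absurd hl (Nat.not_lt_zero _)⟩
      | succ m ih =>
        obtain ⟨d, hd, hd0d, hdl⟩ := ih
        by_cases hnm : n ≤ m
        · obtain ⟨d1, hd1, hd1m⟩ := meets hs (hopen m) (hsW m hnm)
          obtain ⟨d2, hd2, h1, h2⟩ := hDdir d hd d1 hd1
          refine ⟨d2, hd2, hd0d.trans h1, fun l hl hlm => ?_⟩
          rcases Nat.lt_succ_iff_lt_or_eq.mp hlm with h | h
          · exact (hdl l hl h).mono (inter_subset_inter_left _ h1)
          · rw [h]; exact hd1m.mono (inter_subset_inter_left _ h2)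
        · exact ⟨d, hd, hd0d, fun l hl hlm => absurd hl (by omega)⟩
    obtain ⟨d, hd, hd0d, hdl⟩ := hfin N
    refine ⟨d, hd, fun l hl => ?_⟩
    by_cases hlN : l < N
    · exact hdl l hl hlN
    · exact ⟨z, hd0d hz0, hzU, hN l (not_lt.mp hlN)⟩
  obtain ⟨Fam, hFam, hFamfin, hTF⟩ := hTU (range W) (by rintro _ ⟨n, rfl⟩; exact hWo n) (by
    rintro C ⟨z, hzC, hzU⟩
    obtain ⟨N, hN⟩ := hpf z hzU
    exact ⟨W N, ⟨N, rfl⟩, fun l hl => ⟨z, hzC, hzU, hN l hl⟩⟩)
  -- a bound for the indices
  have hbd : ∃ M, ∀ V ∈ Fam, ∃ n ≤ M, V = W n := by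
    have : ∀ V : Set (Closeds X), ∃ n, V ∈ Fam → V = W n := by
      intro V
      by_cases hV : V ∈ Fam
      · obtain ⟨n, hn⟩ := hFam hV
        exact ⟨n, fun _ => hn.symm⟩
      · exact ⟨0, fun h => absurd h hV⟩
    choose i hi using this
    obtain ⟨M, hM⟩ := (hFamfin.image i).bddAbove
    exact ⟨M, fun V hV => ⟨i V, hM ⟨V, hV, rfl⟩, hi V hV⟩⟩
  obtain ⟨M, hM⟩ := hbd
  obtain ⟨V, hV, hGV⟩ := hTF (hGT M)
  obtain ⟨n, hn, rfl⟩ := hM V hV
  obtain ⟨z, hz, -, hz'⟩ := hGV M hn
  exact hz' hz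

/-- If `X` is countably coinitial (for instance if all point closures of `X` are countable) and the
Scott space of the lattice of closed sets of `X` is core-compact, then `X` is core-compact; moreover every neighbourhood `U` of a point `x`
contains a finite set `F` whose saturation is a neighbourhood of `x`. -/
theorem result (hcl : CountablyCoinitial X)
    (h : CoreCompact (Y := Closeds X) ScottOpen) :
    CoreCompact (Y := X) IsOpen ∧
      ∀ U : Set X, IsOpen U → ∀ x ∈ U, ∃ F : Finset X, (F : Set X) ⊆ U ∧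
        {z | ∃ y ∈ F, y ∈ closure {z}} ∈ nhds x := by
  refine ⟨fun U hU x hx => ?_, fun U hU x hx => ?_⟩
  · obtain ⟨F, hFU, hxF⟩ := finitary hcl h U hU x hx
    refine ⟨interior (up (F : Set X)), isOpen_interior, hxF, fun C hC hUC => ?_⟩
    have h1 : ∀ y : X, ∃ W : Set X, y ∈ F → W ∈ C ∧ y ∈ W := by
      intro y
      by_cases hy : y ∈ F
      · obtain ⟨W, hW, hyW⟩ := hUC (hFU hy)
        exact ⟨W, fun _ => ⟨hW, hyW⟩⟩
      · exact ⟨∅, fun h => absurd h hy⟩
    choose W hW using h1
    refine ⟨W '' (F : Set X), ?_, F.finite_toSet.image _, ?_⟩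
    · rintro _ ⟨y, hy, rfl⟩
      exact (hW y hy).1
    · intro z hz
      obtain ⟨y, hy, hyz⟩ := interior_subset hz
      refine ⟨W y, ⟨y, hy, rfl⟩, ?_⟩
      obtain ⟨w, hw, hw'⟩ := mem_closure_iff.mp hyz (W y) (hC _ (hW y hy).1) (hW y hy).2
      rw [mem_singleton_iff] at hw'
      rw [← hw']; exact hw
  · obtain ⟨F, hFU, hxF⟩ := finitary hcl h U hU x hx
    exact ⟨F, hFU, mem_interior_iff_mem_nhds.mp hxF⟩

end Pool.Agent.Results.MP_1b9d6e_gt.CountableClosures
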